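import Mathlib
import Pool.Agent.H472R3.Defs
import Pool.Agent.R692.CV.Prim
import Pool.Agent.R692.CV.Tree
import Pool.Agent.R692.CV.Pair

set_option autoImplicit false

/-!
# No finite set of primitive elements of `F_2` is `CV_2`-rigid

Points of `cv_2` are free minimal isometric actions of `F_2 = FreeGroup (Fin 2)` on R-trees with
discrete orbits (`FTree.InCV`); points of `CV_2` have moreover a simplicial fundamental domain with
total edge length `1` (`HasCovolume`).  Two points are equal if there is an equivariant isometry
(`FTree.Same`).

Given a finite set `S` of primitive elements there is an automorphism `ψ` of `F(a,b)` such that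
every element of `S` is, up to conjugation and inversion, `ψ(a)^k` or a product of elements
`ψ(a^m b)`, `m ≥ 1`.  The universal cover of the theta graph with edges of lengths `1/10, 7/10,
2/10` and the universal cover of the dumbbell graph with loops of lengths `3/10`, `5/10` and bridge
of length `2/10`, suitably marked, have the same translation lengths on all these elements.
-/

namespace Pool.Agent.Results.MP_9fd1ce_al.NotRigid

open Pool.Agent.H472R3 Pool.Agent.R692.CV

/-- The points of `CV_2`: points of unprojectivized Outer space with co-volume one. -/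
def InCV2 (A : FTree 2) : Prop := A.InCV ∧ HasCovolume A 1

/-- A set `S` is `CV_2`-rigid if two points of `CV_2` with the same translation lengths on `S` are
equal. -/
def IsRigid (S : Set (FreeGroup (Fin 2))) : Prop :=
  ∀ A B : FTree 2, InCV2 A → InCV2 B → (∀ g ∈ S, A.len g = B.len g) → A.Same B

/-- There is no finite `CV_2`-rigid set of primitive elements. -/
theorem result : ¬ ∃ S : Set (FreeGroup (Fin 2)), S.Finite ∧ (∀ g ∈ S, IsPrimitive g) ∧
    IsRigid S := by
  rintro ⟨S, hS, hprim, hrig⟩
  have h1 : ∀ᶠ N : ℕ in Filter.atTop, ∀ g ∈ S,
      (twist DT.tree (psiA N)).len g = (twist DD.tree (psiA N)).len g :=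
    (Filter.eventually_all_finite hS).2 fun g hg => agree (hprim g hg)
  obtain ⟨N, hN⟩ := h1.exists
  exact not_same N (hrig _ _
    ⟨twist_inCV _ _ DT_inCV, twist_covolume _ _ DT_cov⟩
    ⟨twist_inCV _ _ DD_inCV, twist_covolume _ _ DD_cov⟩ hN)

end Pool.Agent.Results.MP_9fd1ce_al.NotRigid
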